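import Pool.Agent.Helper60.PW.Defs2

/-!
Module E3 for MP_124889_co, part 1: auxiliary results for the labelling with a special vertex.
-/

open MvPolynomial

namespace PoolPW

namespace Sp

/-! ### the graph -/

/-- the remaining edges at `b` -/
def link {V : Type*} (M : SimpleGraph V) (b r : V) (B : Finset V) : SimpleGraph V where
  Adj u v := M.Adj u v ∧ u ≠ r ∧ v ≠ r ∧ ((u = b ∧ v ∉ B) ∨ (v = b ∧ u ∉ B))
  symm := ⟨fun _ _ h => ⟨h.1.symm, h.2.2.1, h.2.1, h.2.2.2.symm⟩⟩
  loopless := ⟨fun _ h => M.loopless.irrefl _ h.1⟩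

theorem delVV_adj {V : Type*} {M : SimpleGraph V} {b r u v : V} :
    (delVV M b r).Adj u v ↔ M.Adj u v ∧ u ≠ b ∧ v ≠ b ∧ u ≠ r ∧ v ≠ r := by
  constructor
  · rintro ⟨⟨h1, h2, h3⟩, h4, h5⟩
    exact ⟨h1, h2, h3, h4, h5⟩
  · rintro ⟨h1, h2, h3, h4, h5⟩
    exact ⟨⟨h1, h2, h3⟩, h4, h5⟩

theorem link_adj {V : Type*} {M : SimpleGraph V} {b r : V} {B : Finset V} {u v : V} :
    (link M b r B).Adj u v ↔
      M.Adj u v ∧ u ≠ r ∧ v ≠ r ∧ ((u = b ∧ v ∉ B) ∨ (v = b ∧ u ∉ B)) := Iff.rfl

theorem sup_adj {V : Type*} {M : SimpleGraph V} {b r : V} {B : Finset V} {u v : V} :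
    (delVV M b r ⊔ link M b r B).Adj u v ↔ M.Adj u v ∧ u ≠ r ∧ v ≠ r ∧
      ¬ (u = b ∧ v ∈ B) ∧ ¬ (v = b ∧ u ∈ B) := by
  rw [SimpleGraph.sup_adj, delVV_adj, link_adj]
  constructor
  · rintro (⟨h1, h2, h3, h4, h5⟩ | ⟨h1, h2, h3, h4⟩)
    · exact ⟨h1, h4, h5, fun h => h2 h.1, fun h => h3 h.1⟩
    · refine ⟨h1, h2, h3, ?_, ?_⟩
      · rintro ⟨rfl, h⟩
        rcases h4 with h4 | h4
        · exact h4.2 h
        · exact h1.ne h4.1.symm
      · rintro ⟨rfl, h⟩
        rcases h4 with h4 | h4
        · exact h1.ne h4.1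
        · exact h4.2 h
  · rintro ⟨h1, h2, h3, h4, h5⟩
    by_cases hu : u = b
    · exact Or.inr ⟨h1, h2, h3, Or.inl ⟨hu, fun h => h4 ⟨hu, h⟩⟩⟩
    · by_cases hv : v = b
      · exact Or.inr ⟨h1, h2, h3, Or.inr ⟨hv, fun h => h5 ⟨hv, h⟩⟩⟩
      · exact Or.inl ⟨h1, hu, hv, h2, h3⟩

/-! ### sums over components -/

open Classical in
theorem sum_comp {V : Type*} [Fintype V] (K : SimpleGraph V) (g : V → ZMod 2) (S : Finset V)
    (hS : ∀ u ∈ S, ∀ v, K.Reachable u v → v ∈ S)
    (h : ∀ u ∈ S, ∑ v ∈ Finset.univ.filter (fun v => K.Reachable u v), g v = 0) :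
    ∑ v ∈ S, g v = 0 := by
  rw [← Finset.sum_fiberwise_of_maps_to (s := S) (t := S.image K.connectedComponentMk)
    (g := K.connectedComponentMk) (fun i hi => Finset.mem_image_of_mem _ hi)]
  apply Finset.sum_eq_zero
  intro C hC
  obtain ⟨u, hu, rfl⟩ := Finset.mem_image.1 hC
  rw [← h u hu]
  apply Finset.sum_congr
  · ext v
    simp only [Finset.mem_filter, Finset.mem_univ, true_and]
    rw [SimpleGraph.ConnectedComponent.eq]
    exact ⟨fun h => h.2.symm, fun h => ⟨hS u hu v h, h.symm⟩⟩
  · intro _ _; rfl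

open Classical in
/-- the parity condition on the components of the union -/
theorem parity {V : Type*} [Fintype V] (M : SimpleGraph V) (b r : V) (hbr : b ≠ r)
    (B : Finset V) (g : V → ZMod 2) (hgr : g r = 0)
    (htot : ∑ v ∈ Finset.univ.erase r, g v = 0)
    (hlink : ∀ u, u ≠ b → u ≠ r → (∀ v, (delVV M b r).Reachable u v → M.Adj b v → v ∈ B) →
      ∑ v ∈ Finset.univ.filter (fun v => (delVV M b r).Reachable u v), g v = 0) (u : V) :
    ∑ v ∈ Finset.univ.filter (fun v => (delVV M b r ⊔ link M b r B).Reachable u v), g v = 0 := by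
  set K := delVV M b r ⊔ link M b r B with hK
  -- `r` is isolated
  have hr : ∀ v, K.Reachable r v → v = r := by
    intro v hv
    obtain ⟨p⟩ := hv
    cases p with
    | nil => rfl
    | cons h _ =>
      rw [hK, sup_adj] at h
      exact absurd rfl h.2.1
  -- components not containing `b`
  have hnob : ∀ u, u ≠ r → ¬ K.Reachable u b →
      ∑ v ∈ Finset.univ.filter (fun v => K.Reachable u v), g v = 0 := by
    intro u hur hub
    have hsame : ∀ v, K.Reachable u v ↔ (delVV M b r).Reachable u v := by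
      intro v
      constructor
      · rintro ⟨p⟩
        have hub' : ¬ K.Reachable u b := hub
        clear hub hur
        induction p with
        | nil => exact SimpleGraph.Reachable.refl _
        | @cons x y w h p ih =>
          have hyb : ¬ K.Reachable y b := fun h' => hub' (h.reachable.trans h')
          refine SimpleGraph.Reachable.trans ?_ (ih hyb)
          apply SimpleGraph.Adj.reachable
          have h2 := h
          rw [hK, sup_adj] at h2
          rw [delVV_adj]
          refine ⟨h2.1, ?_, ?_, h2.2.1, h2.2.2.1⟩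
          · rintro rfl
            exact hub' (SimpleGraph.Reachable.refl _)
          · rintro rfl
            exact hyb (SimpleGraph.Reachable.refl _)
      · intro h
        exact h.mono le_sup_left
    have h2 := hlink u (fun h => hub (h ▸ SimpleGraph.Reachable.refl _)) hur (by
      intro v hv hbv
      by_contra hvB
      apply hub
      refine ((hsame v).2 hv).trans ?_
      apply SimpleGraph.Adj.reachable
      rw [hK, sup_adj]
      have hvr : v ≠ r := by
        rintro rfl
        have h3 := ((hsame v).2 hv).symm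
        exact hur (hr _ h3)
      refine ⟨hbv.symm, hvr, hbr, ?_, ?_⟩
      · rintro ⟨rfl, _⟩
        exact hbv.ne rfl
      · rintro ⟨_, h⟩
        exact hvB h)
    rw [← h2]
    apply Finset.sum_congr
    · ext v
      simp only [Finset.mem_filter, Finset.mem_univ, true_and]
      exact hsame v
    · intro _ _; rfl
  by_cases hur : u = r
  · subst hur
    apply Finset.sum_eq_zero
    intro v hv
    rw [Finset.mem_filter] at hv
    rw [hr v hv.2, hgr]
  by_cases hub : K.Reachable u b
  · -- the component of `b`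
    have h3 : ∑ v ∈ (Finset.univ.erase r).filter (fun v => ¬ K.Reachable u v), g v = 0 := by
      apply sum_comp K
      · intro x hx v hxv
        rw [Finset.mem_filter, Finset.mem_erase] at hx ⊢
        refine ⟨⟨?_, Finset.mem_univ _⟩, ?_⟩
        · rintro rfl
          exact hx.1.1 (hr _ hxv.symm)
        · intro h
          exact hx.2 (h.trans hxv.symm)
      · intro x hx
        rw [Finset.mem_filter, Finset.mem_erase] at hx
        have h5 := hnob x hx.1.1 (fun h => hx.2 (hub.trans h.symm))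
        convert h5
    have h4 : (Finset.univ.erase r).filter (fun v => K.Reachable u v) =
        Finset.univ.filter (fun v => K.Reachable u v) := by
      ext v
      simp only [Finset.mem_filter, Finset.mem_erase, Finset.mem_univ, and_true, true_and]
      constructor
      · exact fun h => h.2
      · intro h
        refine ⟨?_, h⟩
        rintro rfl
        exact hur (hr _ h.symm)
    rw [← Finset.sum_filter_add_sum_filter_not _ (fun v => K.Reachable u v), h3, add_zero,
      h4] at htot
    exact htot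
  · exact hnob u hur hub

/-! ### sums over neighbours -/

open Classical in
theorem sum_nb {V : Type*} [Fintype V] (M : SimpleGraph V) (b r : V) (hbr : b ≠ r)
    (B : Finset V) (hB : ∀ s ∈ B, M.Adj b s ∧ s ≠ r) (K : SimpleGraph V)
    (hK : K = delVV M b r ⊔ link M b r B) (F : V → ℝ) {v : V} (hvb : v ≠ b)
    (hvr : v ≠ r) :
    ∑ u ∈ Finset.univ.filter (fun u => M.Adj v u), F u =
      ∑ u ∈ Finset.univ.filter (fun u => K.Adj v u), F u +
        (if v ∈ B then F b else 0) + (if M.Adj r v then F r else 0) := by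
  have sup_adj : ∀ u v, K.Adj u v ↔ M.Adj u v ∧ u ≠ r ∧ v ≠ r ∧
      ¬ (u = b ∧ v ∈ B) ∧ ¬ (v = b ∧ u ∈ B) := by
    intro u v
    rw [hK]
    exact Sp.sup_adj
  rw [Finset.sum_filter, Finset.sum_filter]
  have e1 : (if v ∈ B then F b else 0) = ∑ u, if u = b ∧ v ∈ B then F u else 0 := by
    by_cases h : v ∈ B
    · simp [h]
    · simp [h]
  have e2 : (if M.Adj r v then F r else 0) = ∑ u, if u = r ∧ M.Adj r v then F u else 0 := by
    by_cases h : M.Adj r v
    · simp [h]
    · simp [h]
  rw [e1, e2, ← Finset.sum_add_distrib, ← Finset.sum_add_distrib]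
  apply Finset.sum_congr rfl
  intro u _
  by_cases hub : u = b
  · subst hub
    have h1 : ¬ (u = r ∧ M.Adj r v) := fun h => hbr h.1
    rw [if_neg h1, add_zero]
    by_cases hv : v ∈ B
    · have h2 : ¬ K.Adj v u := by
        rw [sup_adj]
        rintro ⟨_, _, _, _, h⟩
        exact h ⟨rfl, hv⟩
      rw [if_pos (hB v hv).1.symm, if_neg h2, if_pos (show u = u ∧ v ∈ B from ⟨rfl, hv⟩),
        zero_add]
    · rw [if_neg (show ¬ (u = u ∧ v ∈ B) from fun h => hv h.2), add_zero]
      congr 1
      rw [sup_adj, eq_iff_iff]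
      refine ⟨fun h => ⟨h, hvr, hbr, fun h' => hvb h'.1, fun h' => hv h'.2⟩, fun h => h.1⟩
  · have h1 : ¬ (u = b ∧ v ∈ B) := fun h => hub h.1
    rw [if_neg h1, add_zero]
    by_cases hur : u = r
    · subst hur
      have h2 : ¬ K.Adj v u := by
        rw [sup_adj]
        exact fun h => h.2.2.1 rfl
      rw [if_neg h2, zero_add]
      congr 1
      rw [eq_iff_iff]
      exact ⟨fun h => ⟨rfl, h.symm⟩, fun h => h.2.symm⟩
    · rw [if_neg (show ¬ (u = r ∧ M.Adj r v) from fun h => hur h.1), add_zero]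
      congr 1
      rw [sup_adj, eq_iff_iff]
      refine ⟨fun h => ⟨h, hvr, hur, fun h' => hvb h'.1, fun h' => hub h'.1⟩, fun h => h.1⟩

open Classical in
theorem sum_nb_b {V : Type*} [Fintype V] (M : SimpleGraph V) (b r : V) (hbr : b ≠ r)
    (B : Finset V) (hB : ∀ s ∈ B, M.Adj b s ∧ s ≠ r) (K : SimpleGraph V)
    (hK : K = delVV M b r ⊔ link M b r B) (F : V → ℝ) :
    ∑ u ∈ Finset.univ.filter (fun u => M.Adj b u), F u =
      ∑ u ∈ Finset.univ.filter (fun u => K.Adj b u), F u +
        ∑ s ∈ B, F s + (if M.Adj b r then F r else 0) := by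
  have sup_adj : ∀ u v, K.Adj u v ↔ M.Adj u v ∧ u ≠ r ∧ v ≠ r ∧
      ¬ (u = b ∧ v ∈ B) ∧ ¬ (v = b ∧ u ∈ B) := by
    intro u v
    rw [hK]
    exact Sp.sup_adj
  have e1 : ∑ s ∈ B, F s = ∑ u, if u ∈ B then F u else 0 := by
    rw [Finset.sum_ite_mem, Finset.univ_inter]
  have e2 : (if M.Adj b r then F r else 0) = ∑ u, if u = r ∧ M.Adj b r then F u else 0 := by
    by_cases h : M.Adj b r
    · simp [h]
    · simp [h]
  rw [Finset.sum_filter, Finset.sum_filter, e1, e2, ← Finset.sum_add_distrib,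
    ← Finset.sum_add_distrib]
  apply Finset.sum_congr rfl
  intro u _
  by_cases hur : u = r
  · subst hur
    have h1 : u ∉ B := fun h => (hB u h).2 rfl
    have h2 : ¬ K.Adj b u := by
      rw [sup_adj]
      exact fun h => h.2.2.1 rfl
    rw [if_neg h1, if_neg h2, add_zero, zero_add]
    congr 1
    rw [eq_iff_iff]
    exact ⟨fun h => ⟨rfl, h⟩, fun h => h.2⟩
  · rw [if_neg (fun h : u = r ∧ M.Adj b r => hur h.1), add_zero]
    by_cases hu : u ∈ B
    · have h2 : ¬ K.Adj b u := by
        rw [sup_adj]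
        rintro ⟨_, _, _, h, _⟩
        exact h ⟨rfl, hu⟩
      rw [if_pos (hB u hu).1, if_pos hu, if_neg h2, zero_add]
    · rw [if_neg hu, add_zero]
      congr 1
      rw [sup_adj, eq_iff_iff]
      refine ⟨fun h => ⟨h, hbr, hur, fun h' => hu h'.2, ?_⟩, fun h => h.1⟩
      rintro ⟨rfl, _⟩
      exact h.ne rfl

open Classical in
theorem no_nb_r {V : Type*} [Fintype V] (M : SimpleGraph V) (b r : V) (B : Finset V)
    (K : SimpleGraph V) (hK : K = delVV M b r ⊔ link M b r B) :
    Finset.univ.filter (fun u => K.Adj r u) = ∅ := by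
  rw [Finset.filter_eq_empty_iff]
  intro u _
  rw [hK, sup_adj]
  exact fun h => h.2.1 rfl

/-! ### polynomials -/

theorem sg_sq {V : Type*} (T : V → ZMod 2) (v : V) : sg T v * sg T v = 1 := by
  unfold sg
  split_ifs <;> norm_num

theorem sg_ne_zero {V : Type*} (T : V → ZMod 2) (v : V) : sg T v ≠ 0 := by
  unfold sg
  split_ifs <;> norm_num

theorem sg_of_ne {V : Type*} (T : V → ZMod 2) {u v : V} (h : T u ≠ T v) :
    sg T u = - sg T v := by
  unfold sg
  have h01 : ∀ x : ZMod 2, x = 0 ∨ x = 1 := by decide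
  rcases h01 (T u) with hu | hu <;> rcases h01 (T v) with hv | hv
  · exact absurd (hu.trans hv.symm) h
  · rw [hu, hv, if_pos rfl, if_neg (by decide), neg_neg]
  · rw [hu, hv, if_pos rfl, if_neg (by decide)]
  · exact absurd (hu.trans hv.symm) h

theorem lin_cut {V : Type*} [Fintype V] (T : V → ZMod 2) {b s : V} (h : T s ≠ T b) :
    ModB.lin (exB T) (b, s) = C (sg T b) * (X b - X s) := by
  classical
  have hbs : b ≠ s := fun h' => h (by rw [h'])
  have h1 : ∀ v, C (exB T (b, s) v) * X v = (if v = b then C (sg T b) * X b else 0) +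
      (if v = s then C (sg T s) * X s else (0 : MvPolynomial V ℝ)) := by
    intro v
    unfold exB inc
    by_cases hvb : v = b
    · subst hvb
      simp [hbs]
    · by_cases hvs : v = s
      · subst hvs
        simp [hvb]
      · simp [hvb, hvs]
  unfold ModB.lin
  rw [Finset.sum_congr rfl (fun v _ => h1 v), Finset.sum_add_distrib, Finset.sum_ite_eq',
    Finset.sum_ite_eq', if_pos (Finset.mem_univ _), if_pos (Finset.mem_univ _), sg_of_ne T h,
    C_neg]
  ring

theorem lin_self {V : Type*} [Fintype V] (T : V → ZMod 2) (b : V) :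
    ModB.lin (exB T) (b, b) = C (sg T b) * X b := by
  classical
  have h1 : ∀ v, C (exB T (b, b) v) * X v =
      (if v = b then C (sg T b) * X b else (0 : MvPolynomial V ℝ)) := by
    intro v
    unfold exB inc
    by_cases hvb : v = b
    · subst hvb
      simp
    · simp [hvb]
  unfold ModB.lin
  rw [Finset.sum_congr rfl (fun v _ => h1 v), Finset.sum_ite_eq', if_pos (Finset.mem_univ _)]

theorem dPoly_pderiv {V : Type*} [Fintype V] (M : SimpleGraph V) (T : V → ZMod 2) (x : V)
    (hx : ∀ v, ¬ M.Adj x v) : pderiv x (dPoly M T) = 0 := by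
  classical
  unfold dPoly
  have h1 : ∀ e ∈ dIn M T, pderiv x (X e.1 - X e.2 : MvPolynomial V ℝ) = 0 := by
    intro e he
    rw [mem_dIn] at he
    have h2 : e.1 ≠ x := by
      intro h
      exact hx e.2 (h ▸ he.1.1)
    have h3 : e.2 ≠ x := by
      intro h
      exact hx e.1 (h ▸ he.1.1.symm)
    rw [map_sub, pderiv_X_of_ne h2, pderiv_X_of_ne h3, sub_zero]
  generalize dIn M T = H at h1
  induction H using Finset.induction_on with
  | empty => simp
  | insert e H he ih =>
    rw [Finset.prod_insert he, Derivation.leibniz, ih (fun f hf => h1 f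
      (Finset.mem_insert_of_mem hf)), h1 e (Finset.mem_insert_self _ _), smul_zero, smul_zero,
      add_zero]

theorem dPoly_whom {V : Type*} [Fintype V] (M : SimpleGraph V) (T : V → ZMod 2) (w : V → ℕ)
    (hw : ∀ u v, M.Adj u v → T u = T v → w u = w v) :
    ∃ n, (dPoly M T).IsWeightedHomogeneous w n := by
  refine ⟨∑ e ∈ dIn M T, w e.1, ?_⟩
  unfold dPoly
  apply IsWeightedHomogeneous.prod
  intro e he
  rw [mem_dIn] at he
  have h1 : (X e.1 : MvPolynomial V ℝ).IsWeightedHomogeneous w (w e.1) :=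
    isWeightedHomogeneous_X _ _ _
  have h2 : (X e.2 : MvPolynomial V ℝ).IsWeightedHomogeneous w (w e.1) := by
    rw [hw e.1 e.2 he.1.1 he.1.2]
    exact isWeightedHomogeneous_X _ _ _
  exact (weightedHomogeneousSubmodule ℝ w (w e.1)).sub_mem h1 h2

/-! ### upper bounds for the values -/

open Classical in
theorem val_le {V : Type*} [Fintype V] (M : SimpleGraph V) (β i : V → ℕ) (a c : ℝ)
    (hac : a < c) (W : V → V → ℝ) (v : V) (hi : i v ≤ β v) (hW : ∀ u, W v u ≤ c) :
    val M (fun v => a * β v + (c - a) * i v) W v ≤ c * (dg M v + β v) := by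
  unfold val dg
  have h1 : ∑ u ∈ Finset.univ.filter (fun u => M.Adj v u), W v u ≤
      ∑ u ∈ Finset.univ.filter (fun u => M.Adj v u), c := Finset.sum_le_sum fun u _ => hW u
  rw [Finset.sum_const, nsmul_eq_mul] at h1
  have h2 : (i v : ℝ) ≤ β v := by exact_mod_cast hi
  have h3 : 0 ≤ (c - a) * ((β v : ℝ) - i v) := mul_nonneg (by linarith) (by linarith)
  simp only
  nlinarith

open Classical in
theorem val_lt {V : Type*} [Fintype V] (M : SimpleGraph V) (β i : V → ℕ) (a c : ℝ)
    (hac : a < c) (W : V → V → ℝ) (v : V) (hi : i v ≤ β v) (hW : ∀ u, W v u ≤ c)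
    (h : i v < β v ∨ ∃ u, M.Adj v u ∧ W v u ≠ c) :
    val M (fun v => a * β v + (c - a) * i v) W v < c * (dg M v + β v) := by
  unfold val dg
  have h2 : (i v : ℝ) ≤ β v := by exact_mod_cast hi
  have h3 : 0 ≤ (c - a) * ((β v : ℝ) - i v) := mul_nonneg (by linarith) (by linarith)
  simp only
  rcases h with h | ⟨x, hx, hxc⟩
  · have h1 : ∑ u ∈ Finset.univ.filter (fun u => M.Adj v u), W v u ≤
        ∑ u ∈ Finset.univ.filter (fun u => M.Adj v u), c := Finset.sum_le_sum fun u _ => hW u
    rw [Finset.sum_const, nsmul_eq_mul] at h1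
    have h4 : (i v : ℝ) < β v := by exact_mod_cast h
    have h5 : 0 < (c - a) * ((β v : ℝ) - i v) := mul_pos (by linarith) (by linarith)
    nlinarith
  · have h1 : ∑ u ∈ Finset.univ.filter (fun u => M.Adj v u), W v u <
        ∑ u ∈ Finset.univ.filter (fun u => M.Adj v u), c :=
      Finset.sum_lt_sum (fun u _ => hW u)
        ⟨x, by simpa using hx, lt_of_le_of_ne (hW x) hxc⟩
    rw [Finset.sum_const, nsmul_eq_mul] at h1
    nlinarith

/-- adding multiples of the even difference -/
theorem phi_mul (a c : ℝ) (Φ : ℝ → ZMod 2) (h1 : ∀ t, Φ (t + (c - a)) = Φ t) (n : ℕ) (t : ℝ) :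
    Φ (t + n * (c - a)) = Φ t := by
  induction n generalizing t with
  | zero => simp
  | succ n ih =>
    have : t + ((n + 1 : ℕ) : ℝ) * (c - a) = (t + n * (c - a)) + (c - a) := by push_cast; ring
    rw [this, h1, ih]

end Sp

end PoolPW
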