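import Pool.Agent.Helper73.PW.E1
import Pool.Agent.Helper95.PW.Centre
import Pool.Agent.Helper41.PW.SpecialA

/-!
Module E3 for MP_124889_co: labelling with a special vertex all of whose edges and half-edges
get the maximal label.
-/

open MvPolynomial

namespace PoolPW

open Classical in
/-- the polynomial condition -/
theorem Sp.pairing {V : Type*} [Fintype V] (M : SimpleGraph V) (b r : V) (hbr : b ≠ r)
    (T : V → ZMod 2) (Bb Nb : Finset V) (hBb : ∀ s ∈ Bb, M.Adj b s ∧ s ≠ r ∧ T s ≠ T b)
    (hNb : ∀ s ∈ Nb, M.Adj b s ∧ s ≠ r ∧ T s = T b)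
    (pb ε : ℕ) (hpb : pb ≤ 1)
    (hε : (ε = 0 ∧ Bb.card + pb = Nb.card) ∨ (ε = 1 ∧ Bb.card + pb = Nb.card + 1)) :
    ModB.prL ((∏ s ∈ (if pb = 1 then insert b Bb else Bb), ModB.lin (exB T) (b, s)) *
        dPoly (delVV M b r) T)
      ((∏ t ∈ (if ε = 1 then insert r Nb else Nb), (X b - X t)) * dPoly (delVV M b r) T) ≠ 0 := by
  have hbBb : b ∉ Bb := fun h => (hBb b h).1.ne rfl
  have hrNb : r ∉ Nb := fun h => (hNb r h).2.1 rfl
  obtain ⟨uG, hG⟩ := Sp.dPoly_whom (delVV M b r) T
    (fun v => if v ≠ b ∧ v ≠ r ∧ T v = T b then 1 else 0) (by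
      intro u v h hT
      rw [Sp.delVV_adj] at h
      simp [h.2.1, h.2.2.1, h.2.2.2.1, h.2.2.2.2, hT])
  obtain ⟨uS, hS⟩ := Sp.dPoly_whom (delVV M b r) T
    (fun v => if v ≠ b ∧ v ≠ r ∧ T v ≠ T b then 1 else 0) (by
      intro u v h hT
      rw [Sp.delVV_adj] at h
      simp [h.2.1, h.2.2.1, h.2.2.2.1, h.2.2.2.2, hT])
  have hpc := pairing_core b r hbr (fun v => v ≠ b ∧ v ≠ r ∧ T v = T b)
    (fun v => v ≠ b ∧ v ≠ r ∧ T v ≠ T b) (dPoly (delVV M b r) T) (dPoly_ne _ _)
    (Sp.dPoly_pderiv _ _ _ (fun v h => (Sp.delVV_adj.1 h).2.1 rfl))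
    (Sp.dPoly_pderiv _ _ _ (fun v h => (Sp.delVV_adj.1 h).2.2.2.1 rfl))
    (fun v => if v ≠ b ∧ v ≠ r ∧ T v = T b then 1 else 0)
    (fun v => if v ≠ b ∧ v ≠ r ∧ T v ≠ T b then 1 else 0)
    (fun v => ⟨fun h => if_pos h, fun h => if_neg h⟩)
    (fun v => ⟨fun h => if_pos h, fun h => if_neg h⟩)
    uG uS hG hS (fun v h => h.2.2.2 h.1.2.2) (fun h => h.1 rfl) (fun h => h.2.1 rfl)
    (fun h => h.1 rfl) (fun h => h.2.1 rfl) Nb ∅ Bb ∅
    (fun v hv => ⟨(hNb v hv).1.ne', (hNb v hv).2.1, (hNb v hv).2.2⟩)
    (fun v hv => absurd hv (Finset.notMem_empty _))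
    (fun v hv => ⟨(hBb v hv).1.ne', (hBb v hv).2.1, (hBb v hv).2.2⟩)
    (fun v hv => absurd hv (Finset.notMem_empty _)) ε 0 pb 0 (by
      rcases hε with ⟨h1, h2⟩ | ⟨h1, h2⟩
      · exact Or.inl ⟨h1, rfl, h2, rfl⟩
      · exact Or.inr (Or.inl ⟨h1, rfl, h2, rfl⟩))
  have hPE : ∃ k : ℝ, k ≠ 0 ∧
      ∏ s ∈ (if pb = 1 then insert b Bb else Bb), ModB.lin (exB T) (b, s) =
        C k * ((∏ v ∈ Bb, (X b - X v)) * X b ^ pb) := by
    have h3 : ∏ s ∈ Bb, ModB.lin (exB T) (b, s) =
        C (sg T b ^ Bb.card) * ∏ v ∈ Bb, (X b - X v) := by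
      rw [Finset.prod_congr rfl (fun s hs => Sp.lin_cut T (hBb s hs).2.2),
        Finset.prod_mul_distrib, Finset.prod_const, C_pow]
    rcases (show pb = 0 ∨ pb = 1 by omega) with h | h
    · refine ⟨sg T b ^ Bb.card, pow_ne_zero _ (Sp.sg_ne_zero T b), ?_⟩
      rw [if_neg (by omega), h3, h, pow_zero, mul_one]
    · refine ⟨sg T b * sg T b ^ Bb.card, mul_ne_zero (Sp.sg_ne_zero T b)
        (pow_ne_zero _ (Sp.sg_ne_zero T b)), ?_⟩
      rw [if_pos h, Finset.prod_insert hbBb, h3, Sp.lin_self, h, pow_one, C_mul]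
      ring
  have hPN : ∏ t ∈ (if ε = 1 then insert r Nb else Nb), (X b - X t : MvPolynomial V ℝ) =
      (X b - X r) ^ ε * ∏ v ∈ Nb, (X b - X v) := by
    rcases hε with ⟨h1, h2⟩ | ⟨h1, h2⟩
    · rw [if_neg (by omega), h1, pow_zero, one_mul]
    · rw [if_pos h1, Finset.prod_insert hrNb, h1, pow_one]
  obtain ⟨k, hk, hPE⟩ := hPE
  rw [hPE, hPN, mul_assoc (C k), ← smul_eq_C_mul, map_smul, LinearMap.smul_apply, smul_eq_mul]
  refine mul_ne_zero hk ?_
  simpa using hpc

open Classical in
/-- Module E3 (special vertex): all edges and half-edges at `r` get the maximal label `c`. -/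
theorem special {V : Type*} [Fintype V] (M : SimpleGraph V) (β : V → ℕ) (a z c : ℝ)
    (hac : a < c) (hzc : z < c) (Φ : ℝ → ZMod 2)
    (h1 : ∀ t, Φ (t + (c - a)) = Φ t) (h2 : ∀ t, Φ (t + (z - a)) = Φ t + 1)
    (b r : V) (hbr : b ≠ r) (T : V → ZMod 2) (hT : IsMaxCut (delVV M b r) T)
    (hTr : T r = Φ (a * (dg M r + β r)))
    (htot : ∑ v ∈ Finset.univ.erase r, (Φ (a * (dg M v + β v)) + T v) = 0)
    (Bb : Finset V) (hBb : ∀ s ∈ Bb, M.Adj b s ∧ s ≠ r ∧ T s ≠ T b)
    (pb : ℕ) (hpb : pb ≤ 1) (hpb' : pb ≤ β b)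
    (hlink : ∀ u, u ≠ b → u ≠ r → (∀ v, (delVV M b r).Reachable u v → M.Adj b v → v ∈ Bb) →
      ∑ v ∈ Finset.univ.filter (fun v => (delVV M b r).Reachable u v),
        (Φ (a * (dg M v + β v)) + T v) = 0)
    (hcase : (Bb.card + pb =
          (Finset.univ.filter (fun v => M.Adj b v ∧ v ≠ r ∧ T v = T b)).card ∧ pb = 0 ∧
        (¬ M.Adj b r ∨ T b ≠ T r ∨
          (c * (dg M b + β b) ≤ c * (dg M r + β r) ∧ 2 ≤ dg M b + β b))) ∨
      (Bb.card + pb =
          (Finset.univ.filter (fun v => M.Adj b v ∧ v ≠ r ∧ T v = T b)).card + 1 ∧ T b = T r))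
    (hord : ∀ t, M.Adj r t → t ≠ b → c * (dg M t + β t) ≤ c * (dg M r + β r))
    (hnb : ∀ t, M.Adj r t → t ≠ b → M.Adj b t ∨ ∃ u, (delVV M b r).Adj t u)
    (hrisk : ∀ t ∈ Bb, M.Adj r t → T t = T r → (∃ u, (delVV M b r).Adj t u) ∨ 0 < β t ∨
      c * (dg M t + β t) ≠ c * (dg M r + β r)) :
    Good M β a z c := by
  -- the two cases in a uniform way
  set Nb : Finset V := Finset.univ.filter (fun v => M.Adj b v ∧ v ≠ r ∧ T v = T b) with hNb
  have hNb' : ∀ s, s ∈ Nb ↔ M.Adj b s ∧ s ≠ r ∧ T s = T b := by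
    intro s
    rw [hNb, Finset.mem_filter]
    exact ⟨fun h => h.2, fun h => ⟨Finset.mem_univ _, h⟩⟩
  obtain ⟨ε, hε⟩ : ∃ ε : ℕ, (ε = 0 ∧ Bb.card + pb = Nb.card ∧ pb = 0 ∧
      (¬ M.Adj b r ∨ T b ≠ T r ∨
        (c * (dg M b + β b) ≤ c * (dg M r + β r) ∧ 2 ≤ dg M b + β b))) ∨
      (ε = 1 ∧ Bb.card + pb = Nb.card + 1 ∧ T b = T r) := by
    rcases hcase with h | h
    · exact ⟨0, Or.inl ⟨rfl, h⟩⟩
    · exact ⟨1, Or.inr ⟨rfl, h⟩⟩
  clear hcase
  clear_value Nb
  have hbBb : b ∉ Bb := fun h => (hBb b h).1.ne rfl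
  have hrBb : r ∉ Bb := fun h => (hBb r h).2.1 rfl
  have hBb' : ∀ s ∈ Bb, M.Adj b s ∧ s ≠ r := fun s hs => ⟨(hBb s hs).1, (hBb s hs).2.1⟩
  -- extra toggles and pairs
  have hinj : Function.Injective (fun s : V => (b, s)) := fun s t h => (Prod.ext_iff.1 h).2
  set E' : Finset V := if pb = 1 then insert b Bb else Bb with hE'
  set N' : Finset V := if ε = 1 then insert r Nb else Nb with hN'
  have hE'sub : ∀ s ∈ E', s = b ∨ s ∈ Bb := by
    intro s hs
    rw [hE'] at hs
    split_ifs at hs
    · exact Finset.mem_insert.1 hs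
    · exact Or.inr hs
  have hbE' : b ∈ E' ↔ pb = 1 := by
    rw [hE']
    split_ifs with h
    · simp [h]
    · simp [h, hbBb]
  have hBbE' : ∀ s ∈ Bb, s ∈ E' := by
    intro s hs
    rw [hE']
    split_ifs
    · exact Finset.mem_insert_of_mem hs
    · exact hs
  -- the offsets
  set κ : V → ℝ := fun v => if v = r then c * (dg M r + β r) else
    if v = b then a * β b + a * Bb.card + (if M.Adj b r then c else 0) else
    a * β v + (if v ∈ Bb then a else 0) + (if M.Adj r v then c else 0) with hκ
  have hdg : ∀ (G : SimpleGraph V) (v : V), (dg G v : ℝ) =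
      ∑ u ∈ Finset.univ.filter (fun u => G.Adj v u), (1 : ℝ) := by
    intro G v
    simp [dg]
  have hκr : κ r = c * (dg M r + β r) := by simp [hκ]
  have hκb : κ b = a * β b + a * Bb.card + (if M.Adj b r then c else 0) := by
    simp [hκ, hbr]
  have hκv : ∀ v, v ≠ b → v ≠ r →
      κ v = a * β v + (if v ∈ Bb then a else 0) + (if M.Adj r v then c else 0) := by
    intro v hvb hvr
    simp [hκ, hvb, hvr]
  obtain ⟨K, hK⟩ : ∃ K, K = delVV M b r ⊔ Sp.link M b r Bb := ⟨_, rfl⟩
  have hdgKr : dg K r = 0 := by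
    unfold dg
    rw [Sp.no_nb_r M b r Bb K hK, Finset.card_empty]
  have hpk : ∀ v, Φ (κ v + a * dg K v) =
      Φ (a * (dg M v + β v)) := by
    intro v
    by_cases hvr : v = r
    · subst hvr
      rw [hκr, hdgKr]
      have := Sp.phi_mul a c Φ h1 (dg M v + β v) (a * (dg M v + β v))
      rw [← this]
      congr 1
      push_cast
      ring
    · by_cases hvb : v = b
      · subst hvb
        have h3 := Sp.sum_nb_b M v r hbr Bb hBb' K hK (fun _ => (1 : ℝ))
        rw [← hdg, ← hdg, Finset.sum_const, nsmul_eq_mul, mul_one] at h3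
        rw [hκb, h3]
        split_ifs
        · have := Sp.phi_mul a c Φ h1 1 (a * (dg K v +
            Bb.card + 1 + β v))
          rw [← this]
          congr 1
          push_cast
          ring
        · congr 1
          ring
      · have h3 := Sp.sum_nb M b r hbr Bb hBb' K hK (fun _ => (1 : ℝ)) hvb hvr
        rw [← hdg, ← hdg] at h3
        rw [hκv v hvb hvr, h3]
        have h4 : κ v = κ v := rfl
        by_cases h5 : v ∈ Bb <;> by_cases h6 : M.Adj r v
        · simp only [h5, h6, if_true]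
          have := Sp.phi_mul a c Φ h1 1 (a * (dg K v +
            1 + 1 + β v))
          rw [← this]
          congr 1
          push_cast
          ring
        · simp only [h5, h6, if_true, if_false]
          congr 1
          ring
        · simp only [h5, h6, if_true, if_false]
          have := Sp.phi_mul a c Φ h1 1 (a * (dg K v +
            0 + 1 + β v))
          rw [← this]
          congr 1
          push_cast
          ring
        · simp only [h5, h6, if_false]
          congr 1
          ring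
  have hpar : ∀ u, ∑ v ∈ Finset.univ.filter
      (fun v => (delVV M b r ⊔ Sp.link M b r Bb).Reachable u v),
      (Φ (κ v + a * dg (delVV M b r ⊔ Sp.link M b r Bb) v) + T v) = 0 := by
    intro u
    have h3 := Sp.parity M b r hbr Bb (fun v => Φ (a * (dg M v + β v)) + T v)
      (by rw [hTr]; exact CharTwo.add_self_eq_zero _) htot hlink u
    rw [← h3]
    apply Finset.sum_congr
    · ext v
      simp only [Finset.mem_filter]
    · intro v _
      rw [← hK, hpk v]
  have hpair := Sp.pairing M b r hbr T Bb Nb hBb (fun s hs => (hNb' s).1 hs) pb ε hpb (by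
    rcases hε with h | h
    · exact Or.inl ⟨h.1, h.2.1⟩
    · exact Or.inr ⟨h.1, h.2.1⟩)
  obtain ⟨w, y, hsym, hlab, hLc, hMc, hy, hyE, hΦ, hprop, hsep⟩ :=
    centre (delVV M b r) (Sp.link M b r Bb) T hT (by
        intro u v h h'
        rw [Sp.delVV_adj] at h
        rcases h'.2.2.2 with h3 | h3
        · exact h.2.1 h3.1
        · exact h.2.2.1 h3.1)
      a z c hac.ne Φ h1 h2 κ hpar (E'.map ⟨fun s => (b, s), hinj⟩)
      (N'.map ⟨fun s => (b, s), hinj⟩) (by
        intro n hn
        obtain ⟨s, hs, rfl⟩ := Finset.mem_map.1 hn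
        simp only [Function.Embedding.coeFn_mk]
        rw [hN'] at hs
        split_ifs at hs with h3
        · rcases Finset.mem_insert.1 hs with h4 | h4
          · rcases hε with h5 | h5
            · omega
            · rw [h4]; exact h5.2.2
          · exact ((hNb' s).1 h4).2.2.symm
        · exact ((hNb' s).1 hs).2.2.symm)
      (by
        rw [Finset.prod_map, Finset.prod_map]
        exact hpair)
  rw [← hK] at hΦ hprop hsep
  set κ' : V → ℝ := fun v => κ v +
    ∑ e ∈ E'.map ⟨fun s => (b, s), hinj⟩, inc e v * y e with hκ'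
  -- values of the toggles
  have hybb : ¬ (pb = 1) → y (b, b) = 0 := by
    intro h
    apply hyE
    intro h'
    obtain ⟨s, hs, hs'⟩ := Finset.mem_map.1 h'
    simp only [Function.Embedding.coeFn_mk, Prod.mk.injEq, true_and] at hs'
    subst hs'
    exact h (hbE'.1 hs)
  have hκ'r : κ' r = c * (dg M r + β r) := by
    simp only [hκ']
    rw [hκr, Finset.sum_map]
    have : ∑ s ∈ E', inc ((⟨fun s => (b, s), hinj⟩ : V ↪ V × V) s) r *
        y ((⟨fun s => (b, s), hinj⟩ : V ↪ V × V) s) = 0 := by
      apply Finset.sum_eq_zero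
      intro s hs
      have h3 : s ≠ r := by
        rcases hE'sub s hs with h | h
        · rw [h]; exact hbr
        · rintro rfl
          exact hrBb h
      simp [inc, hbr.symm, h3.symm]
    rw [this, add_zero]
  have hκ'b : κ' b = κ b + (∑ s ∈ Bb, y (b, s) + y (b, b)) := by
    simp only [hκ']
    congr 1
    rw [Finset.sum_map]
    simp only [Function.Embedding.coeFn_mk, inc, true_or, if_true, one_mul]
    rw [hE']
    split_ifs with h
    · rw [Finset.sum_insert hbBb, add_comm]
    · rw [hybb h, add_zero]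
  have hκ'v : ∀ v, v ≠ b → v ≠ r → κ' v = κ v + (if v ∈ Bb then y (b, v) else 0) := by
    intro v hvb hvr
    simp only [hκ']
    congr 1
    rw [Finset.sum_map]
    simp only [Function.Embedding.coeFn_mk, inc, hvb, false_or, ite_mul, one_mul, zero_mul]
    rw [Finset.sum_ite_eq]
    by_cases h : v ∈ Bb
    · rw [if_pos h, if_pos (hBbE' v h)]
    · rw [if_neg h, if_neg]
      intro h'
      rcases hE'sub v h' with h3 | h3
      · exact hvb h3
      · exact h h3
  -- the labelling
  let W : V → V → ℝ := fun u v => if u = r ∨ v = r then c else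
    if u = b ∧ v ∈ Bb then a + y (b, v) else if v = b ∧ u ∈ Bb then a + y (b, u) else w u v
  let i : V → ℕ := fun v => if v = r then β r else if v = b ∧ y (b, b) ≠ 0 then 1 else 0
  have hWsym : ∀ u v, W u v = W v u := by
    intro u v
    simp only [W]
    by_cases h3 : u = r ∨ v = r
    · rw [if_pos h3, if_pos h3.symm]
    · have h3' : ¬ (v = r ∨ u = r) := fun h => h3 h.symm
      by_cases h4 : u = b ∧ v ∈ Bb
      · have h5 : ¬ (v = b ∧ u ∈ Bb) := by
          rintro ⟨rfl, _⟩
          exact hbBb h4.2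
        rw [if_neg h3, if_neg h3', if_pos h4, if_neg h5, if_pos h4]
      · by_cases h5 : v = b ∧ u ∈ Bb
        · rw [if_neg h3, if_neg h3', if_neg h4, if_pos h5, if_pos h5]
        · rw [if_neg h3, if_neg h3', if_neg h4, if_neg h5, if_neg h5, if_neg h4, hsym]
  have hWlab : ∀ u v, W u v = a ∨ W u v = z ∨ W u v = c := by
    intro u v
    simp only [W]
    have hy' : ∀ s, a + y (b, s) = a ∨ a + y (b, s) = z ∨ a + y (b, s) = c := by
      intro s
      rcases hy (b, s) with h | h
      · left; rw [h, add_zero]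
      · right; right; rw [h]; ring
    split_ifs
    · exact Or.inr (Or.inr rfl)
    · exact hy' v
    · exact hy' u
    · exact hlab u v
  have hWle : ∀ u v, W u v ≤ c := by
    intro u v
    rcases hWlab u v with h | h | h <;> rw [h]
    · exact hac.le
    · exact hzc.le
  have hWr : ∀ v, W v r = c := fun v => if_pos (Or.inr rfl)
  have hWr' : ∀ v, W r v = c := fun v => if_pos (Or.inl rfl)
  have hWbB : ∀ s ∈ Bb, W b s = a + y (b, s) := by
    intro s hs
    simp only [W]
    rw [if_neg, if_pos ⟨trivial, hs⟩]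
    rintro (h | h)
    · exact hbr h
    · exact (hBb s hs).2.1 h
  have hWK : ∀ u v, K.Adj u v → W u v = w u v := by
    intro u v h
    rw [hK, Sp.sup_adj] at h
    simp only [W]
    rw [if_neg, if_neg h.2.2.2.1, if_neg h.2.2.2.2]
    rintro (h' | h')
    · exact h.2.1 h'
    · exact h.2.2.1 h'
  have hir : i r = β r := if_pos rfl
  have hib : ((i b : ℕ) : ℝ) * (c - a) = y (b, b) := by
    simp only [i]
    rw [if_neg hbr]
    by_cases h : y (b, b) = 0
    · rw [if_neg (fun h' => h'.2 h), h]
      simp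
    · rw [if_pos ⟨trivial, h⟩]
      rcases hy (b, b) with h' | h'
      · exact absurd h' h
      · rw [h']; simp
  have hiv : ∀ v, v ≠ b → v ≠ r → i v = 0 := by
    intro v hvb hvr
    simp only [i]
    rw [if_neg hvr, if_neg (fun h => hvb h.1)]
  have hib0 : pb = 0 → i b = 0 := by
    intro h
    simp only [i]
    rw [if_neg hbr, if_neg]
    rintro ⟨_, h'⟩
    exact h' (hybb (by omega))
  have hi : ∀ v, i v ≤ β v := by
    intro v
    by_cases hvr : v = r
    · rw [hvr, hir]
    · by_cases hvb : v = b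
      · subst hvb
        by_cases h : pb = 1
        · have : i v ≤ 1 := by
            simp only [i]
            split_ifs
            · exact le_rfl
            · exact zero_le_one
          omega
        · rw [hib0 (by omega)]
          exact Nat.zero_le _
      · rw [hiv v hvb hvr]
        exact Nat.zero_le _
  -- the values agree
  have hval : ∀ v, val M (fun v => a * β v + (c - a) * i v) W v = val K κ' w v := by
    intro v
    unfold val
    simp only
    by_cases hvr : v = r
    · subst hvr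
      rw [hκ'r, hir, Sp.no_nb_r M b v Bb K hK, Finset.sum_empty,
        Finset.sum_congr rfl (fun u _ => hWr' u), Finset.sum_const, nsmul_eq_mul]
      unfold dg
      ring
    · by_cases hvb : v = b
      · subst hvb
        rw [Sp.sum_nb_b M v r hbr Bb hBb' K hK (fun u => W v u), hκ'b, hκb]
        have h3 : ∑ u ∈ Finset.univ.filter (fun u => K.Adj v u), W v u =
            ∑ u ∈ Finset.univ.filter (fun u => K.Adj v u), w v u := by
          apply Finset.sum_congr rfl
          intro u hu
          exact hWK v u (Finset.mem_filter.1 hu).2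
        have h4 : ∑ s ∈ Bb, W v s = a * Bb.card + ∑ s ∈ Bb, y (v, s) := by
          rw [Finset.sum_congr rfl hWbB, Finset.sum_add_distrib, Finset.sum_const,
            nsmul_eq_mul]
          ring
        rw [h3, h4, hWr, ← hib]
        ring
      · rw [Sp.sum_nb M b r hbr Bb hBb' K hK (fun u => W v u) hvb hvr, hκ'v v hvb hvr,
          hκv v hvb hvr, hiv v hvb hvr]
        have h3 : ∑ u ∈ Finset.univ.filter (fun u => K.Adj v u), W v u =
            ∑ u ∈ Finset.univ.filter (fun u => K.Adj v u), w v u := by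
          apply Finset.sum_congr rfl
          intro u hu
          exact hWK v u (Finset.mem_filter.1 hu).2
        rw [h3, hWr]
        by_cases h4 : v ∈ Bb
        · simp only [h4, if_true]
          rw [hWsym v b, hWbB v h4]
          push_cast
          ring
        · simp only [h4, if_false]
          push_cast
          ring
  -- properness
  have hXr : val K κ' w r = c * (dg M r + β r) := by
    unfold val
    rw [hκ'r, Sp.no_nb_r M b r Bb K hK, Finset.sum_empty, add_zero]
  have hdiff : ∀ u v, T u ≠ T v → val K κ' w u ≠ val K κ' w v := by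
    intro u v h h'
    apply h
    rw [← hΦ u, ← hΦ v, h']
  have hcb : ∀ v, M.Adj b v → v ≠ r → val K κ' w b ≠ val K κ' w v := by
    intro v hv hvr
    by_cases hTv : T v = T b
    · refine hsep (b, v) (Finset.mem_map.2 ⟨v, ?_, rfl⟩)
      have h3 : v ∈ Nb := (hNb' v).2 ⟨hv, hvr, hTv⟩
      rw [hN']
      split_ifs
      · exact Finset.mem_insert_of_mem h3
      · exact h3
    · exact hdiff _ _ (fun h => hTv h.symm)
  have hlb : ∀ t, M.Adj b t → t ≠ r → t ∉ Bb → w b t ≠ c ∧ W b t ≠ c := by
    intro t ht htr htB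
    have h3 : (Sp.link M b r Bb).Adj b t := ⟨ht, hbr, htr, Or.inl ⟨rfl, htB⟩⟩
    have h4 := hLc b t h3
    refine ⟨h4, ?_⟩
    rw [hWK b t (hK ▸ Or.inr h3)]
    exact h4
  have hcr : M.Adj b r → val K κ' w b ≠ val K κ' w r := by
    intro hadj
    by_cases hTb : T b = T r
    · rcases hε with ⟨h3, h4, h5, h6⟩ | ⟨h3, h4, h5⟩
      · rcases h6 with h6 | h6 | ⟨h6, h7⟩
        · exact absurd hadj h6
        · exact absurd hTb h6
        · rw [hXr]
          apply ne_of_lt
          refine lt_of_lt_of_le ?_ h6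
          rw [← hval b]
          apply Sp.val_lt M β i a c hac W b (hi b) (hWle b)
          by_cases hβ : 0 < β b
          · left
            rw [hib0 h5]
            exact hβ
          · right
            have h8 : 2 ≤ dg M b := by omega
            unfold dg at h8
            obtain ⟨u, hu, hur⟩ := Finset.exists_mem_ne (by omega :
              1 < (Finset.univ.filter (fun x => M.Adj b x)).card) r
            have hu' : M.Adj b u := (Finset.mem_filter.1 hu).2
            by_cases huB : u ∈ Bb
            · have h9 : 0 < Nb.card := by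
                have : 0 < Bb.card := Finset.card_pos.2 ⟨u, huB⟩
                omega
              obtain ⟨t, ht⟩ := Finset.card_pos.1 h9
              rw [hNb'] at ht
              refine ⟨t, ht.1, (hlb t ht.1 ht.2.1 ?_).2⟩
              intro h10
              exact (hBb t h10).2.2 ht.2.2
            · exact ⟨u, hu', (hlb u hu' hur huB).2⟩
      · refine hsep (b, r) (Finset.mem_map.2 ⟨r, ?_, rfl⟩)
        rw [hN', if_pos h3]
        exact Finset.mem_insert_self _ _
    · exact hdiff _ _ hTb
  have hct : ∀ t, M.Adj r t → t ≠ b → val K κ' w r ≠ val K κ' w t := by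
    intro t ht htb
    have htr : t ≠ r := ht.ne'
    by_cases hTt : T t = T r
    · rw [hXr]
      apply ne_of_gt
      rw [← hval t]
      have hstrict : (∃ u, (delVV M b r).Adj t u) →
          val M (fun v => a * β v + (c - a) * i v) W t < c * (dg M r + β r) := by
        intro h
        refine lt_of_lt_of_le ?_ (hord t ht htb)
        apply Sp.val_lt M β i a c hac W t (hi t) (hWle t)
        obtain ⟨u, hu, hu'⟩ := hMc t h
        right
        refine ⟨u, (Sp.delVV_adj.1 hu).1, ?_⟩
        rw [hWK t u (hK ▸ Or.inl hu)]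
        exact hu'
      rcases hnb t ht htb with h3 | h3
      · by_cases htB : t ∈ Bb
        · rcases hrisk t htB ht hTt with h4 | h4 | h4
          · exact hstrict h4
          · refine lt_of_lt_of_le ?_ (hord t ht htb)
            apply Sp.val_lt M β i a c hac W t (hi t) (hWle t)
            left
            rw [hiv t htb htr]
            exact h4
          · refine lt_of_le_of_lt (Sp.val_le M β i a c hac W t (hi t) (hWle t)) ?_
            exact lt_of_le_of_ne (hord t ht htb) h4
        · refine lt_of_lt_of_le ?_ (hord t ht htb)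
          apply Sp.val_lt M β i a c hac W t (hi t) (hWle t)
          right
          refine ⟨b, h3.symm, ?_⟩
          rw [hWsym t b]
          exact (hlb t h3 htr htB).2
      · exact hstrict h3
    · exact hdiff _ _ (fun h => hTt h.symm)
  refine ⟨W, i, hWsym, hWlab, hi, ?_⟩
  intro u v huv
  rw [hval u, hval v]
  by_cases hur : u = r
  · subst hur
    by_cases hvb : v = b
    · subst hvb
      exact (hcr huv.symm).symm
    · exact hct v huv hvb
  · by_cases hvr : v = r
    · subst hvr
      by_cases hub : u = b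
      · subst hub
        exact hcr huv
      · exact (hct u huv.symm hub).symm
    · by_cases hub : u = b
      · subst hub
        exact hcb v huv hvr
      · by_cases hvb : v = b
        · subst hvb
          exact (hcb u huv.symm hur).symm
        · exact hprop u v (Sp.delVV_adj.2 ⟨huv, hub, hvb, hur, hvr⟩)

end PoolPW
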